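import Pool.Agent.Y524H.WP2
import Pool.Agent.TH111.J524b

set_option autoImplicit false

/-! Triviality is undecidable for finitely presented groups with two generators. -/

namespace Pool.Agent.U630.HZ

open Pool.Agent.Y524H

/-! ### the words -/

/-- Words in two letters. -/
abbrev W2 : Type := List (Fin 2 × Bool)

/-- Powers of the first letter. -/
def aw (n : ℕ) : W2 := rep (0, true) n

/-- Powers of the second letter. -/
def dp (n : ℕ) : W2 := rep (1, true) n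

/-- `d⁻ʲ a⁸ dʲ` -/
def cdw (j : ℕ) : W2 := iw (dp j) ++ aw 8 ++ dp j

/-- `aʲ d⁻ʲ a⁸ dʲ a⁻ʲ` -/
def yw (j : ℕ) : W2 := aw j ++ cdw j ++ iw (aw j)

/-- The words for the two generators of the given group. -/
def Xw : Fin 2 → W2
  | 0 => yw 2 ++ iw (yw 1)
  | 1 => yw 3 ++ iw (yw 1)

/-- Substitution. -/
def sb (w : W2) : W2 := w.flatMap fun x => if x.2 then Xw x.1 else iw (Xw x.1)

/-- The relators. -/
def rels (rl : List W2) (w : W2) : List W2 :=
  rl.map sb ++ [sb w ++ yw 1 ++ iw (sb w) ++ iw (yw 1) ++ iw (yw 4),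
    iw (aw 5) ++ yw 1 ++ aw 6 ++ iw (cdw 5),
    iw (aw 7) ++ yw 1 ++ aw 7 ++ iw (iw (dp 6) ++ aw 8 ++ dp 7)]

theorem mk_aw (n : ℕ) : FreeGroup.mk (aw n) = FreeGroup.of (0 : Fin 2) ^ n := mk_rep 0 n
theorem mk_dp (n : ℕ) : FreeGroup.mk (dp n) = FreeGroup.of (1 : Fin 2) ^ n := mk_rep 1 n

theorem mk_app (u v : W2) : FreeGroup.mk (u ++ v) = FreeGroup.mk u * FreeGroup.mk v :=
  FreeGroup.mul_mk.symm

section eval

variable {P : Type} [Group P] (E : FreeGroup (Fin 2) →* P)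

/-- The value of the substitution. -/
def VE : FreeGroup (Fin 2) →* P := FreeGroup.lift fun i => E (FreeGroup.mk (Xw i))

theorem mk_sb (w : W2) : E (FreeGroup.mk (sb w)) = VE E (FreeGroup.mk w) := by
  induction w with
  | nil => simp [sb, ← FreeGroup.one_eq_mk]
  | cons x w ih =>
    have h1 : sb (x :: w) = (if x.2 then Xw x.1 else iw (Xw x.1)) ++ sb w := by
      simp [sb]
    have h2 : FreeGroup.mk (x :: w) = FreeGroup.mk [x] * FreeGroup.mk w := by
      rw [FreeGroup.mul_mk]; rfl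
    rw [h1, mk_app, map_mul, ih, h2, map_mul]
    congr 1
    obtain ⟨i, e⟩ := x
    cases e
    · have : FreeGroup.mk [(i, false)] = (FreeGroup.of i)⁻¹ := rfl
      rw [this, map_inv, VE, FreeGroup.lift_apply_of]
      change E (FreeGroup.mk (iw (Xw i))) = _
      rw [mk_iw, map_inv]
    · have : FreeGroup.mk [(i, true)] = FreeGroup.of i := rfl
      rw [this, VE, FreeGroup.lift_apply_of]
      simp

/-- Images of the words. -/
theorem E_cdw (j : ℕ) : E (FreeGroup.mk (cdw j)) =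
    (E (FreeGroup.of 1) ^ j)⁻¹ * E (FreeGroup.of 0) ^ 8 * E (FreeGroup.of 1) ^ j := by
  rw [cdw, mk_app, mk_app, mk_iw, mk_aw, mk_dp]
  simp only [map_mul, map_inv, map_pow]

theorem E_yw (j : ℕ) : E (FreeGroup.mk (yw j)) =
    E (FreeGroup.of 0) ^ j * E (FreeGroup.mk (cdw j)) * (E (FreeGroup.of 0) ^ j)⁻¹ := by
  rw [yw, mk_app, mk_app, mk_iw, mk_aw]
  simp only [map_mul, map_inv, map_pow]

/-- Collapse. -/
theorem collapse (rl : List W2) (w : W2) (hr : ∀ r ∈ rels rl w, E (FreeGroup.mk r) = 1)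
    (hw : FreeGroup.mk w ∈ Subgroup.normalClosure
      {x : FreeGroup (Fin 2) | ∃ r ∈ rl, x = FreeGroup.mk r}) :
    E (FreeGroup.of 0) = 1 ∧ E (FreeGroup.of 1) = 1 := by
  have h1 : Subgroup.normalClosure {x : FreeGroup (Fin 2) | ∃ r ∈ rl, x = FreeGroup.mk r} ≤
      (VE E).ker := by
    apply Subgroup.normalClosure_le_normal
    rintro _ ⟨r, hr', rfl⟩
    change VE E (FreeGroup.mk r) = 1
    rw [← mk_sb]
    exact hr _ (List.mem_append_left _ (List.mem_map_of_mem hr'))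
  have h2 : E (FreeGroup.mk (sb w)) = 1 := by
    rw [mk_sb]; exact h1 hw
  have r4 := hr (sb w ++ yw 1 ++ iw (sb w) ++ iw (yw 1) ++ iw (yw 4)) (by simp [rels])
  have r5 := hr (iw (aw 5) ++ yw 1 ++ aw 6 ++ iw (cdw 5)) (by simp [rels])
  have r6 := hr (iw (aw 7) ++ yw 1 ++ aw 7 ++ iw (iw (dp 6) ++ aw 8 ++ dp 7)) (by simp [rels])
  simp only [mk_app, mk_iw, map_mul, map_inv, h2] at r4
  have h4 : E (FreeGroup.mk (yw 4)) = 1 := by
    simpa using r4
  have h8 : E (FreeGroup.of 0) ^ 8 = 1 := by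
    rw [E_yw, E_cdw] at h4
    have h5 := h4
    rw [mul_inv_eq_one] at h5
    have h6 : (E (FreeGroup.of 1) ^ 4)⁻¹ * E (FreeGroup.of 0) ^ 8 * E (FreeGroup.of 1) ^ 4 = 1 := by
      rw [← mul_eq_left (a := E (FreeGroup.of 0) ^ 4)]
      exact h5
    have h7 : E (FreeGroup.of 0) ^ 8 = E (FreeGroup.of 1) ^ 4 *
      ((E (FreeGroup.of 1) ^ 4)⁻¹ * E (FreeGroup.of 0) ^ 8 * E (FreeGroup.of 1) ^ 4) *
        (E (FreeGroup.of 1) ^ 4)⁻¹ := by group
    rw [h7, h6]; group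
  have hc : ∀ j, E (FreeGroup.mk (cdw j)) = 1 := by
    intro j
    rw [E_cdw, h8]; group
  have hy : ∀ j, E (FreeGroup.mk (yw j)) = 1 := by
    intro j
    rw [E_yw, hc]; group
  simp only [mk_app, mk_iw, map_mul, map_inv, hy, hc, mk_aw, mk_dp, map_pow] at r5 r6
  rw [h8] at r6
  constructor
  · have : (E (FreeGroup.of 0) ^ 5)⁻¹ * 1 * E (FreeGroup.of 0) ^ 6 * 1⁻¹ = E (FreeGroup.of 0) := by
      group
    rw [← this]; exact r5
  · have : (E (FreeGroup.of 0) ^ 7)⁻¹ * 1 * E (FreeGroup.of 0) ^ 7 *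
      ((E (FreeGroup.of 1) ^ 6)⁻¹ * 1 * E (FreeGroup.of 1) ^ 7)⁻¹ = (E (FreeGroup.of 1))⁻¹ := by
      group
    rw [this] at r6
    exact inv_eq_one.1 r6

end eval

/-! ### the permutations -/

/-- The free group on seven letters. -/
abbrev F7 : Type := FreeGroup (Fin 7)

/-- The letters. -/
def ee (i : Fin 7) : F7 := FreeGroup.of i

/-- A family of permutations. -/
theorem lift_inj {Ω : Type} (o : F7 → Ω) (ho : Function.Injective o) (p : Fin 7 → Equiv.Perm Ω)
    (hp : ∀ i y, p i (o y) = o (ee i * y)) :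
    (∀ x y, FreeGroup.lift p x (o y) = o (x * y)) ∧ Function.Injective (FreeGroup.lift p) := by
  have h1 : ∀ x y, FreeGroup.lift p x (o y) = o (x * y) := by
    intro x
    induction x using FreeGroup.induction_on with
    | C1 => intro y; simp
    | of i => intro y; rw [FreeGroup.lift_apply_of]; exact hp i y
    | inv_of i _ =>
      intro y
      rw [map_inv, FreeGroup.lift_apply_of, Equiv.Perm.inv_eq_iff_eq, hp, ee, mul_inv_cancel_left]
    | mul u v hu hv =>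
      intro y
      rw [map_mul, Equiv.Perm.mul_apply, hv, hu, mul_assoc]
  refine ⟨h1, ?_⟩
  rw [injective_iff_map_eq_one]
  intro x hx
  have h2 := h1 x 1
  rw [hx, Equiv.Perm.one_apply] at h2
  have := ho h2
  rw [mul_one] at this
  exact this.symm

/-- A permutation given by labels. -/
def mkP {Γ : Type} [Group Γ] (σ τ : Fin 8 → Fin 8) (h1 : ∀ i, τ (σ i) = i) (h2 : ∀ i, σ (τ i) = i)
    (m : Fin 8 → Γ) (l : Fin 8 → Γ → F7) : Equiv.Perm (Fin 8 × Γ × F7) where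
  toFun x := (σ x.1, m x.1 * x.2.1, l x.1 x.2.1 * x.2.2)
  invFun x := (τ x.1, (m (τ x.1))⁻¹ * x.2.1, (l (τ x.1) ((m (τ x.1))⁻¹ * x.2.1))⁻¹ * x.2.2)
  left_inv x := by
    obtain ⟨i, g, y⟩ := x
    simp [h1]
  right_inv x := by
    obtain ⟨i, g, y⟩ := x
    simp [h2]

theorem mkP_apply {Γ : Type} [Group Γ] (σ τ : Fin 8 → Fin 8) (h1 : ∀ i, τ (σ i) = i)
    (h2 : ∀ i, σ (τ i) = i) (m : Fin 8 → Γ) (l : Fin 8 → Γ → F7) (i : Fin 8) (g : Γ) (y : F7) :
    mkP σ τ h1 h2 m l (i, g, y) = (σ i, m i * g, l i g * y) := rfl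

section perms

variable {Γ : Type} [Group Γ]

/-- The cyclic permutation with label `e` at the last step. -/
def cy (e : F7) : Equiv.Perm (Fin 8 × Γ × F7) :=
  mkP (fun i => i + 1) (fun i => i - 1) (by decide) (by decide) (fun _ => 1)
    (fun i _ => if i = 7 then e else 1)

theorem cy_apply (e : F7) (i : Fin 8) (g : Γ) (y : F7) :
    cy e (i, g, y) = (i + 1, g, if i = 7 then e * y else y) := by
  unfold cy
  rw [mkP_apply]
  split_ifs <;> simp

theorem cy_pow (e : F7) (g : Γ) (y : F7) (n : ℕ) (hn : n ≤ 7) :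
    ((cy e) ^ n : Equiv.Perm (Fin 8 × Γ × F7)) (0, g, y) = (Fin.ofNat 8 n, g, y) := by
  induction n with
  | zero => rfl
  | succ n ih =>
    rw [pow_succ', Equiv.Perm.mul_apply, ih (by omega), cy_apply, if_neg]
    · congr 1
      apply Fin.ext
      simp [Fin.ofNat, Fin.val_add]
    · intro h
      have := congrArg Fin.val h
      simp [Fin.ofNat] at this
      omega

theorem cy_pow_inv (e : F7) (g : Γ) (y : F7) (n : ℕ) (hn : n ≤ 7) :
    ((cy e) ^ n : Equiv.Perm (Fin 8 × Γ × F7))⁻¹ (Fin.ofNat 8 n, g, y) = (0, g, y) := by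
  rw [Equiv.Perm.inv_eq_iff_eq, cy_pow e g y n hn]

/-- The action of the group. -/
def gm : Γ →* Equiv.Perm (Fin 8 × Γ × F7) := MonoidHom.mk' (fun g =>
    mkP (fun i => i) (fun i => i) (fun _ => rfl) (fun _ => rfl) (fun _ => g) (fun _ _ => 1)) (by
      intro a b
      ext1 x
      obtain ⟨i, g, y⟩ := x
      rw [Equiv.Perm.mul_apply, mkP_apply, mkP_apply, mkP_apply]
      simp [mul_assoc])

theorem gm_apply (x : Γ) (i : Fin 8) (g : Γ) (y : F7) : gm x (i, g, y) = (i, x * g, y) := by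
  change (i, x * g, 1 * y) = _
  rw [one_mul]

/-- A transposition of two levels. -/
def tw (i j k : Fin 8) : Fin 8 := if k = i then j else if k = j then i else k

theorem tw_tw (i j : Fin 8) : ∀ k, tw i j (tw i j k) = k := by
  intro k
  unfold tw
  by_cases h1 : k = i
  · subst h1
    by_cases h2 : j = k
    · subst h2; simp
    · simp [h2]
  · by_cases h2 : k = j
    · subst h2; simp [h1]
    · simp [h1, h2]

open Classical in
/-- The second letter. -/
noncomputable def pb (x : Fin 2 → Γ) (w : Γ) : Equiv.Perm (Fin 8 × Γ × F7) :=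
  mkP (tw 5 6) (tw 5 6) (tw_tw 5 6) (tw_tw 5 6)
    (fun i => if i = 2 then (x 0)⁻¹ else if i = 3 then (x 1)⁻¹ else 1)
    (fun i g => if i = 1 then ee 1 else if i = 2 then ee 2 else if i = 3 then ee 3 else
      if i = 4 then (if g = w⁻¹ then ee 4 else 1) else if i = 6 then ee 5 else
        if i = 7 then ee 6 else 1)

/-- The letter `c`. -/
def pc : Equiv.Perm (Fin 8 × Unit × F7) :=
  mkP (tw 6 7) (tw 6 7) (tw_tw 6 7) (tw_tw 6 7) (fun _ => 1)
    (fun i _ => if i = 0 then ee 0 else if i = 1 then ee 1 else if i = 2 then ee 2 else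
      if i = 3 then ee 3 else if i = 4 then ee 4 else if i = 5 then ee 5 else
        if i = 7 then ee 6 else 1)

/-- The elements of the first group. -/
noncomputable def pA (x : Fin 2 → Γ) (w : Γ) : Fin 7 → Equiv.Perm (Fin 8 × Γ × F7)
  | 0 => cy (ee 0) ^ 8
  | 1 => (cy (ee 0) ^ 1)⁻¹ * pb x w * cy (ee 0) ^ 1
  | 2 => (cy (ee 0) ^ 2)⁻¹ * (gm (x 0) * pb x w) * cy (ee 0) ^ 2
  | 3 => (cy (ee 0) ^ 3)⁻¹ * (gm (x 1) * pb x w) * cy (ee 0) ^ 3
  | 4 => (cy (ee 0) ^ 4)⁻¹ * (gm w * pb x w * (gm w)⁻¹ * (pb x w)⁻¹) * cy (ee 0) ^ 4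
  | 5 => (cy (ee 0) ^ 5)⁻¹ * pb x w * cy (ee 0) ^ 6
  | 6 => (cy (ee 0) ^ 7)⁻¹ * pb x w * cy (ee 0) ^ 7

/-- The letter `d`. -/
def pd : Equiv.Perm (Fin 8 × Unit × F7) := cy 1

/-- The elements of the second group. -/
def pC : Fin 7 → Equiv.Perm (Fin 8 × Unit × F7)
  | 0 => pc
  | 1 => (pd ^ 1)⁻¹ * pc * pd ^ 1
  | 2 => (pd ^ 2)⁻¹ * pc * pd ^ 2
  | 3 => (pd ^ 3)⁻¹ * pc * pd ^ 3
  | 4 => (pd ^ 4)⁻¹ * pc * pd ^ 4
  | 5 => (pd ^ 5)⁻¹ * pc * pd ^ 5
  | 6 => (pd ^ 6)⁻¹ * pc * pd ^ 7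

theorem pC_apply (i : Fin 7) (y : F7) : pC i (0, (), y) = (0, (), ee i * y) := by
  fin_cases i
  · rfl
  · change ((pd ^ 1)⁻¹ * pc * pd ^ 1) (0, (), y) = _
    rw [Equiv.Perm.mul_apply, Equiv.Perm.mul_apply, pd, cy_pow _ _ _ 1 (by norm_num)]
    exact cy_pow_inv 1 () (ee 1 * y) 1 (by norm_num)
  · change ((pd ^ 2)⁻¹ * pc * pd ^ 2) (0, (), y) = _
    rw [Equiv.Perm.mul_apply, Equiv.Perm.mul_apply, pd, cy_pow _ _ _ 2 (by norm_num)]
    exact cy_pow_inv 1 () (ee 2 * y) 2 (by norm_num)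
  · change ((pd ^ 3)⁻¹ * pc * pd ^ 3) (0, (), y) = _
    rw [Equiv.Perm.mul_apply, Equiv.Perm.mul_apply, pd, cy_pow _ _ _ 3 (by norm_num)]
    exact cy_pow_inv 1 () (ee 3 * y) 3 (by norm_num)
  · change ((pd ^ 4)⁻¹ * pc * pd ^ 4) (0, (), y) = _
    rw [Equiv.Perm.mul_apply, Equiv.Perm.mul_apply, pd, cy_pow _ _ _ 4 (by norm_num)]
    exact cy_pow_inv 1 () (ee 4 * y) 4 (by norm_num)
  · change ((pd ^ 5)⁻¹ * pc * pd ^ 5) (0, (), y) = _
    rw [Equiv.Perm.mul_apply, Equiv.Perm.mul_apply, pd, cy_pow _ _ _ 5 (by norm_num)]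
    exact cy_pow_inv 1 () (ee 5 * y) 5 (by norm_num)
  · change ((pd ^ 6)⁻¹ * pc * pd ^ 7) (0, (), y) = _
    rw [Equiv.Perm.mul_apply, Equiv.Perm.mul_apply, pd, cy_pow _ _ _ 7 (by norm_num)]
    exact cy_pow_inv 1 () (ee 6 * y) 6 (by norm_num)

open Classical in
theorem pb_apply (x : Fin 2 → Γ) (w : Γ) (i : Fin 8) (g : Γ) (y : F7) :
    pb x w (i, g, y) = (tw 5 6 i,
      (if i = 2 then (x 0)⁻¹ else if i = 3 then (x 1)⁻¹ else 1) * g,
      (if i = 1 then ee 1 else if i = 2 then ee 2 else if i = 3 then ee 3 else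
      if i = 4 then (if g = w⁻¹ then ee 4 else 1) else if i = 6 then ee 5 else
        if i = 7 then ee 6 else 1) * y) := rfl

theorem pb_inv_apply (x : Fin 2 → Γ) (w : Γ) (y : F7) (hw : w ≠ 1) :
    (pb x w)⁻¹ (4, 1, y) = (4, 1, y) := by
  rw [Equiv.Perm.inv_eq_iff_eq, pb_apply]
  have h1 : ¬ (1 : Γ) = w⁻¹ := fun h => hw (by rw [← inv_inv w, ← h, inv_one])
  simp [tw, h1]

theorem pA_apply (x : Fin 2 → Γ) (w : Γ) (hw : w ≠ 1) (i : Fin 7) (y : F7) :
    pA x w i (0, 1, y) = (0, 1, ee i * y) := by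
  fin_cases i
  · change (cy (ee 0) ^ 8 : Equiv.Perm (Fin 8 × Γ × F7)) (0, 1, y) = _
    rw [pow_succ', Equiv.Perm.mul_apply, cy_pow _ _ _ 7 (by norm_num), cy_apply]
    rfl
  · change ((cy (ee 0) ^ 1)⁻¹ * pb x w * cy (ee 0) ^ 1 : Equiv.Perm (Fin 8 × Γ × F7)) (0, 1, y) = _
    rw [Equiv.Perm.mul_apply, Equiv.Perm.mul_apply, cy_pow _ _ _ 1 (by norm_num)]
    have h : pb x w (Fin.ofNat 8 1, 1, y) = (Fin.ofNat 8 1, 1, ee 1 * y) := by
      change pb x w (1, 1, y) = (1, 1, ee 1 * y)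
      rw [pb_apply]
      simp [tw]
    rw [h]
    exact cy_pow_inv _ 1 (ee 1 * y) 1 (by norm_num)
  · change ((cy (ee 0) ^ 2)⁻¹ * (gm (x 0) * pb x w) * cy (ee 0) ^ 2 :
      Equiv.Perm (Fin 8 × Γ × F7)) (0, 1, y) = _
    rw [Equiv.Perm.mul_apply, Equiv.Perm.mul_apply, Equiv.Perm.mul_apply,
      cy_pow _ _ _ 2 (by norm_num)]
    have h : gm (x 0) (pb x w (Fin.ofNat 8 2, 1, y)) = (Fin.ofNat 8 2, 1, ee 2 * y) := by
      change gm (x 0) (pb x w (2, 1, y)) = (2, 1, ee 2 * y)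
      rw [pb_apply, gm_apply]
      simp [tw]
    rw [h]
    exact cy_pow_inv _ 1 (ee 2 * y) 2 (by norm_num)
  · change ((cy (ee 0) ^ 3)⁻¹ * (gm (x 1) * pb x w) * cy (ee 0) ^ 3 :
      Equiv.Perm (Fin 8 × Γ × F7)) (0, 1, y) = _
    rw [Equiv.Perm.mul_apply, Equiv.Perm.mul_apply, Equiv.Perm.mul_apply,
      cy_pow _ _ _ 3 (by norm_num)]
    have h : gm (x 1) (pb x w (Fin.ofNat 8 3, 1, y)) = (Fin.ofNat 8 3, 1, ee 3 * y) := by
      change gm (x 1) (pb x w (3, 1, y)) = (3, 1, ee 3 * y)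
      rw [pb_apply, gm_apply]
      simp [tw]
    rw [h]
    exact cy_pow_inv _ 1 (ee 3 * y) 3 (by norm_num)
  · change ((cy (ee 0) ^ 4)⁻¹ * (gm w * pb x w * (gm w)⁻¹ * (pb x w)⁻¹) * cy (ee 0) ^ 4 :
      Equiv.Perm (Fin 8 × Γ × F7)) (0, 1, y) = _
    rw [Equiv.Perm.mul_apply, Equiv.Perm.mul_apply, Equiv.Perm.mul_apply, Equiv.Perm.mul_apply,
      Equiv.Perm.mul_apply, cy_pow _ _ _ 4 (by norm_num)]
    have h : gm w (pb x w ((gm w)⁻¹ ((pb x w)⁻¹ (Fin.ofNat 8 4, 1, y)))) =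
        (Fin.ofNat 8 4, 1, ee 4 * y) := by
      change gm w (pb x w ((gm w)⁻¹ ((pb x w)⁻¹ (4, 1, y)))) = (4, 1, ee 4 * y)
      rw [pb_inv_apply x w y hw, ← map_inv, gm_apply, pb_apply, gm_apply]
      simp [tw]
    rw [h]
    exact cy_pow_inv _ 1 (ee 4 * y) 4 (by norm_num)
  · change ((cy (ee 0) ^ 5)⁻¹ * pb x w * cy (ee 0) ^ 6 : Equiv.Perm (Fin 8 × Γ × F7)) (0, 1, y) = _
    rw [Equiv.Perm.mul_apply, Equiv.Perm.mul_apply, cy_pow _ _ _ 6 (by norm_num)]
    have h : pb x w (Fin.ofNat 8 6, 1, y) = (Fin.ofNat 8 5, 1, ee 5 * y) := by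
      change pb x w (6, 1, y) = (5, 1, ee 5 * y)
      rw [pb_apply]
      simp [tw]
    rw [h]
    exact cy_pow_inv _ 1 (ee 5 * y) 5 (by norm_num)
  · change ((cy (ee 0) ^ 7)⁻¹ * pb x w * cy (ee 0) ^ 7 : Equiv.Perm (Fin 8 × Γ × F7)) (0, 1, y) = _
    rw [Equiv.Perm.mul_apply, Equiv.Perm.mul_apply, cy_pow _ _ _ 7 (by norm_num)]
    have h : pb x w (Fin.ofNat 8 7, 1, y) = (Fin.ofNat 8 7, 1, ee 6 * y) := by
      change pb x w (7, 1, y) = (7, 1, ee 6 * y)
      rw [pb_apply]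
      simp [tw]
    rw [h]
    exact cy_pow_inv _ 1 (ee 6 * y) 7 (by norm_num)

/-- The first group. -/
abbrev PA (Γ : Type) : Type := Equiv.Perm (Fin 8 × Γ × F7)

/-- The second group. -/
abbrev PC : Type := Equiv.Perm (Fin 8 × Unit × F7)

/-- An index set. -/
abbrev La (Γ : Type) : Type := (PA Γ × PC) × ℕ

/-- Left multiplication. -/
def Mh (Γ : Type) : PA Γ →* Equiv.Perm (PA Γ × La Γ) := MonoidHom.mk' (fun g =>
    (Equiv.mulLeft g).prodCongr (Equiv.refl (La Γ))) (by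
      intro a b
      ext1 x
      show ((a * b) * x.1, x.2) = (a * (b * x.1), x.2)
      rw [mul_assoc])

/-- Existence of a nontrivial group. -/
theorem nontriv (q : FreeGroup (Fin 2) →* Γ) (rl : List W2) (hrl : ∀ r ∈ rl, q (FreeGroup.mk r) = 1)
    (w : W2) (hw : q (FreeGroup.mk w) ≠ 1) :
    ∃ (P : Type) (_ : Group P) (E : FreeGroup (Fin 2) →* P),
      (∀ r ∈ rels rl w, E (FreeGroup.mk r) = 1) ∧ E (FreeGroup.of 0) ≠ 1 := by
  set x : Fin 2 → Γ := fun i => q (FreeGroup.of i) with hx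
  set w' : Γ := q (FreeGroup.mk w) with hw'
  let f : F7 →* PA Γ := FreeGroup.lift (pA x w')
  let h : F7 →* PC := FreeGroup.lift pC
  have hf : Function.Injective f := (lift_inj (fun y => ((0 : Fin 8), (1 : Γ), y))
    (fun a b hab => congrArg (fun z => z.2.2) hab) (pA x w') (fun i y => pA_apply x w' hw i y)).2
  have hh : Function.Injective h := (lift_inj (fun y => ((0 : Fin 8), (), y))
    (fun a b hab => congrArg (fun z => z.2.2) hab) pC (fun i y => pC_apply i y)).2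
  have hP : Cardinal.mk (PA Γ) ≤ Cardinal.mk (La Γ) :=
    Cardinal.mk_le_of_injective (f := fun a : PA Γ => (((a, 1), 0) : La Γ))
      (fun a b h => congrArg (fun x : La Γ => x.1.1) h)
  have hT : Cardinal.mk PC ≤ Cardinal.mk (La Γ) :=
    Cardinal.mk_le_of_injective (f := fun a : PC => (((1, a), 0) : La Γ))
      (fun a b h => congrArg (fun x : La Γ => x.1.2) h)
  obtain ⟨Φ, hΦ⟩ := Pool.Agent.TH111.J524.ext (Λ := La Γ) f hf h hh hP hT
  obtain ⟨M, hMdef⟩ : ∃ M : PA Γ →* Equiv.Perm (PA Γ × La Γ), M = Mh Γ := ⟨_, rfl⟩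
  have hM : ∀ (c a : PA Γ) (n : La Γ), M c (a, n) = (c * a, n) := fun _ _ _ => by
    rw [hMdef]; rfl
  have hMinj : Function.Injective M := by
    intro c c' hc
    have h1 := hM c 1 ((1, 1), 0)
    rw [hc, hM] at h1
    have := congrArg Prod.fst h1
    simpa using this.symm
  have key : ∀ y : F7, Φ (h y) = M (f y) := fun y => by
    ext1 z
    exact (hΦ y z.1 z.2).trans (hM _ _ _).symm
  have kp : ∀ i : Fin 7, Φ (pC i) = M (pA x w' i) := fun i => by
    have := key (FreeGroup.of i)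
    simpa only [f, h, FreeGroup.lift_apply_of] using this
  let α : Equiv.Perm (PA Γ × La Γ) := M (cy (ee 0))
  let δ : Equiv.Perm (PA Γ × La Γ) := Φ pd
  let E : FreeGroup (Fin 2) →* Equiv.Perm (PA Γ × La Γ) := FreeGroup.lift ![α, δ]
  have E0 : E (FreeGroup.of 0) = M (cy (ee 0)) := by
    simp [E, α]
  have E1 : E (FreeGroup.of 1) = Φ pd := by
    simp [E, δ]
  have E8 : E (FreeGroup.of 0) ^ 8 = Φ pc := by
    rw [E0, ← map_pow]
    exact (kp 0).symm
  have Ec : ∀ j, E (FreeGroup.mk (cdw j)) = Φ ((pd ^ j)⁻¹ * pc * pd ^ j) := by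
    intro j
    rw [E_cdw, E8, E1]
    simp only [map_mul, map_inv, map_pow]
  have Ey : ∀ j (z : PA Γ), Φ ((pd ^ j)⁻¹ * pc * pd ^ j) =
      M ((cy (ee 0) ^ j)⁻¹ * z * cy (ee 0) ^ j) → E (FreeGroup.mk (yw j)) = M z := by
    intro j z hz
    rw [E_yw, Ec, hz, E0]
    simp only [map_mul, map_inv, map_pow]
    group
  have y1 : E (FreeGroup.mk (yw 1)) = M (pb x w') := Ey 1 _ (kp 1)
  have y2 : E (FreeGroup.mk (yw 2)) = M (gm (x 0) * pb x w') := Ey 2 _ (kp 2)
  have y3 : E (FreeGroup.mk (yw 3)) = M (gm (x 1) * pb x w') := Ey 3 _ (kp 3)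
  have y4 : E (FreeGroup.mk (yw 4)) = M (gm w' * pb x w' * (gm w')⁻¹ * (pb x w')⁻¹) :=
    Ey 4 _ (kp 4)
  have hV : VE E = (M.comp gm).comp q := by
    apply FreeGroup.ext_hom
    intro i
    rw [VE, FreeGroup.lift_apply_of]
    fin_cases i
    · change E (FreeGroup.mk (yw 2 ++ iw (yw 1))) = M (gm (x 0))
      rw [mk_app, mk_iw, map_mul, map_inv, y1, y2]
      simp only [map_mul]
      group
    · change E (FreeGroup.mk (yw 3 ++ iw (yw 1))) = M (gm (x 1))
      rw [mk_app, mk_iw, map_mul, map_inv, y1, y3]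
      simp only [map_mul]
      group
  refine ⟨Equiv.Perm (PA Γ × La Γ), inferInstance, E, ?_, ?_⟩
  · intro r hr
    rw [rels, List.mem_append] at hr
    rcases hr with hr | hr
    · obtain ⟨s, hs, rfl⟩ := List.mem_map.1 hr
      rw [mk_sb, hV]
      change M (gm (q (FreeGroup.mk s))) = 1
      rw [hrl s hs, map_one, map_one]
    · simp only [List.mem_cons, List.not_mem_nil, or_false] at hr
      have hsw : E (FreeGroup.mk (sb w)) = M (gm w') := by
        rw [mk_sb, hV]; rfl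
      rcases hr with rfl | rfl | rfl
      · simp only [mk_app, mk_iw, map_mul, map_inv, hsw, y1, y4]
        group
      · simp only [mk_app, mk_iw, map_mul, map_inv, y1, mk_aw, map_pow]
        rw [Ec, E0, show Φ ((pd ^ 5)⁻¹ * pc * pd ^ 5) = _ from kp 5]
        change _ * (M ((cy (ee 0) ^ 5)⁻¹ * pb x w' * cy (ee 0) ^ 6))⁻¹ = 1
        simp only [map_mul, map_inv, map_pow]
        group
      · simp only [mk_app, mk_iw, map_mul, map_inv, y1, mk_aw, mk_dp, map_pow]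
        rw [E8, E0, E1]
        have k6 : Φ ((pd ^ 6)⁻¹ * pc * pd ^ 7) =
          M ((cy (ee 0) ^ 7)⁻¹ * pb x w' * cy (ee 0) ^ 7) := kp 6
        simp only [map_mul, map_inv, map_pow] at k6
        rw [k6]
        group
  · rw [E0]
    intro h0
    have h1 : cy (ee 0) = (1 : PA Γ) := hMinj (h0.trans (map_one _).symm)
    have h2 := congrArg (fun z : PA Γ => z (0, 1, 1)) h1
    have h3 := congrArg (fun z : Fin 8 × Γ × F7 => z.1) h2
    simp only [cy_apply, Equiv.Perm.one_apply] at h3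
    exact absurd h3 (by decide)

end perms

theorem sb_primrec : Primrec sb := by
  have h0 : Primrec (fun x : Fin 2 × Bool => if x.2 then Xw x.1 else iw (Xw x.1)) :=
    Primrec.dom_finite _
  have h : Primrec₂ (fun (_ : W2) (x : Fin 2 × Bool) =>
      if x.2 then Xw x.1 else iw (Xw x.1)) := h0.comp Primrec.snd
  exact Primrec.list_flatMap Primrec.id h

theorem iw_primrec : Primrec (iw : W2 → W2) := by
  have hf : Primrec (fun l : Fin 2 × Bool => ((l.1, !l.2) : Fin 2 × Bool)) := Primrec.dom_finite _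
  have h2 : Primrec₂ (fun (_ : W2) (l : Fin 2 × Bool) => ((l.1, !l.2) : Fin 2 × Bool)) :=
    hf.comp Primrec.snd
  exact Primrec.list_reverse.comp (Primrec.list_map Primrec.id h2)

theorem rels_primrec (rl : List W2) : Primrec (rels rl) := by
  unfold rels
  refine Primrec.list_append.comp (Primrec.const _) ?_
  refine Primrec.list_cons.comp ?_ (Primrec.const _)
  exact Primrec.list_append.comp (Primrec.list_append.comp (Primrec.list_append.comp
    (Primrec.list_append.comp sb_primrec (Primrec.const _)) (iw_primrec.comp sb_primrec))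
      (Primrec.const _)) (Primrec.const _)

/-- Triviality is undecidable for groups with two generators and relators from a computable
sequence of lists of constant length. -/
theorem triviality_two : ∃ (N : ℕ) (R : ℕ → List W2), Computable R ∧ (∀ n, (R n).length = N) ∧
    ¬ ComputablePred (fun n => Subgroup.normalClosure
      {x : FreeGroup (Fin 2) | ∃ r ∈ R n, x = FreeGroup.mk r} = ⊤) := by
  obtain ⟨rl, W, hW, hn⟩ := word_problem_two
  refine ⟨rl.length + 3, fun n => rels rl (W n), (rels_primrec rl).to_comp.comp hW, ?_, ?_⟩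
  · intro n
    simp [rels]
  · intro hc
    apply hn
    refine hc.of_eq ?_
    intro n
    set N := Subgroup.normalClosure {x : FreeGroup (Fin 2) | ∃ r ∈ rels rl (W n),
      x = FreeGroup.mk r} with hN
    constructor
    · intro h
      by_contra hcon
      set K := Subgroup.normalClosure {x : FreeGroup (Fin 2) | ∃ r ∈ rl, x = FreeGroup.mk r}
        with hK
      obtain ⟨P, _, E, h1, h2⟩ := nontriv (QuotientGroup.mk' K) rl
        (fun r hr => (QuotientGroup.eq_one_iff _).2 (Subgroup.subset_normalClosure ⟨r, hr, rfl⟩))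
        (W n) (fun h0 => hcon ((QuotientGroup.eq_one_iff _).1 h0))
      apply h2
      have h3 : N ≤ E.ker := by
        apply Subgroup.normalClosure_le_normal
        rintro _ ⟨r, hr, rfl⟩
        exact h1 r hr
      exact h3 (h ▸ Subgroup.mem_top _)
    · intro h
      have h1 := collapse (QuotientGroup.mk' N) rl (W n)
        (fun r hr => (QuotientGroup.eq_one_iff _).2 (Subgroup.subset_normalClosure ⟨r, hr, rfl⟩)) h
      have h2 : QuotientGroup.mk' N = 1 := by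
        apply FreeGroup.ext_hom
        intro i
        fin_cases i
        · exact h1.1
        · exact h1.2
      rw [eq_top_iff]
      intro x _
      exact (QuotientGroup.eq_one_iff _).1 (DFunLike.congr_fun h2 x)

end Pool.Agent.U630.HZ
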