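import Pool.Agent.Y524H.Conv
import Pool.Agent.U630.HZ.AR2

set_option autoImplicit false

/-! Blocks of factorizations, and the subgroups which they generate. -/

namespace Pool.Agent.U630.HZ

open Pool.Agent.Y524H

/-! ### Hurwitz moves -/

section Hur

variable {M : Type} [Group M]

/-- A factorization of the identity commutes with everything. -/
theorem swap_one (t : M) (v : List M) (hv : v.prod = 1) : HurwitzEquiv (t :: v) (v ++ [t]) := by
  have h := move_left v t
  rw [hv, one_mul, inv_one, mul_one] at h
  exact h.symm

theorem swap (u v : List M) (hv : v.prod = 1) : HurwitzEquiv (u ++ v) (v ++ u) := by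
  induction u with
  | nil => simpa using HurwitzEquiv.refl v
  | cons t u ih =>
    have h1 := ih.append [t] []
    simp only [List.append_nil, List.singleton_append] at h1
    have h2 := (swap_one t v hv).append [] u
    simp only [List.nil_append] at h2
    refine h1.trans ?_
    have e : t :: v ++ u = t :: (v ++ u) := rfl
    rw [e] at h2
    refine h2.trans ?_
    have e2 : v ++ [t] ++ u = v ++ (t :: u) := by simp
    rw [e2]
    exact HurwitzEquiv.refl _

/-- Conjugation of a factorization of the identity by a neighbour. -/
theorem conj_one (t : M) (v : List M) (hv : v.prod = 1) :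
    HurwitzEquiv (t :: v) (t :: v.map (MulAut.conj t)) := by
  have h1 := move_right t v
  have h2 : (v.map (MulAut.conj t)).prod = 1 := by
    rw [List.prod_hom, hv, map_one]
  exact h1.trans (swap_one t _ h2).symm

theorem conj_mem (u v : List M) (hv : v.prod = 1) (t : M) (ht : t ∈ u) :
    HurwitzEquiv (u ++ v) (u ++ v.map (MulAut.conj t)) := by
  obtain ⟨l, r, rfl⟩ := List.append_of_mem ht
  have hv2 : (v.map (MulAut.conj t)).prod = 1 := by
    rw [List.prod_hom, hv, map_one]
  have h1 := (swap r v hv).append (l ++ [t]) []
  have h2 := (conj_one t v hv).append l r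
  have h3 := ((swap r _ hv2).append (l ++ [t]) []).symm
  simp only [List.append_nil, List.append_assoc, List.singleton_append, List.cons_append,
    List.nil_append] at h1 h2 h3 ⊢
  exact h1.trans (h2.trans h3)

/-- Conjugation of a factorization of the identity by an element of the group generated by the
other entries. -/
theorem conj_closure2 (u v : List M) (hv : v.prod = 1) {g : M}
    (hg : g ∈ Subgroup.closure {x | x ∈ u}) :
    HurwitzEquiv (u ++ v) (u ++ v.map (MulAut.conj g)) := by
  induction hg using Subgroup.closure_induction generalizing v with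
  | mem s hs => exact conj_mem u v hv s hs
  | one =>
    have : v.map (MulAut.conj (1 : M)) = v := by simp
    rw [this]
    exact HurwitzEquiv.refl _
  | mul x y _ _ hx hy =>
    have h1 : (v.map (MulAut.conj y)).prod = 1 := by
      rw [List.prod_hom, hv, map_one]
    have h2 := hx (v.map (MulAut.conj y)) h1
    rw [conj_mul_map] at h2
    exact (hy v hv).trans h2
  | inv x _ hx =>
    have h1 : (v.map (MulAut.conj x⁻¹)).prod = 1 := by
      rw [List.prod_hom, hv, map_one]
    have h2 := hx (v.map (MulAut.conj x⁻¹)) h1
    rw [conj_mul_map] at h2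
    have : v.map (MulAut.conj (x * x⁻¹)) = v := by simp
    rw [this] at h2
    exact h2.symm

end Hur

/-! ### blocks -/

/-- The concatenation of the conjugates of the positive relation. -/
def bl (L : List Word) : List Entry := L.flatMap fun s => R0e.map (cj s)

theorem bl_append (L K : List Word) : bl (L ++ K) = bl L ++ bl K := by simp [bl]

theorem cj_nil : cj [] = id := by
  funext e
  rfl

theorem bl_nil_single : bl [[]] = R0e := by
  simp [bl, cj_nil]

theorem bl_prod (L : List Word) : ((bl L).map dehn).prod = 1 := by
  induction L with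
  | nil => rfl
  | cons s l ih =>
    have : bl (s :: l) = R0e.map (cj s) ++ bl l := rfl
    rw [this, List.map_append, List.prod_append, ih, mul_one, map_dehn_cj,
      List.prod_hom, R0e_prod, map_one]

theorem bl_isFactorization (L : List Word) : IsFactorization (bl L) := bl_prod L

/-- The subgroup generated by the twists. -/
def HB (L : List Word) : Subgroup OutPi := Subgroup.closure {x | x ∈ (bl L).map dehn}

theorem HB_mono {L K : List Word} (h : ∀ s ∈ L, s ∈ K) : HB L ≤ HB K := by
  apply Subgroup.closure_mono
  intro x hx
  simp only [Set.mem_ofPred_eq, List.mem_map, bl, List.mem_flatMap] at hx ⊢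
  obtain ⟨e, ⟨s, hs, he⟩, rfl⟩ := hx
  exact ⟨e, ⟨s, h s hs, he⟩, rfl⟩

theorem entry_mem {L : List Word} {s : Word} (hs : s ∈ L) {e : Entry} (he : e ∈ r0e) :
    qq (ev s) * dehn e * (qq (ev s))⁻¹ ∈ HB L := by
  rw [← MulAut.conj_apply, ← dehn_cj]
  apply Subgroup.subset_closure
  simp only [Set.mem_ofPred_eq, List.mem_map, bl, List.mem_flatMap]
  exact ⟨cj s e, ⟨s, hs, e, List.mem_append_left _ he, rfl⟩, rfl⟩

theorem theta_conj {L : List Word} {s : Word} (hs : s ∈ L) :
    qq (ev s) * qq sg * (qq (ev s))⁻¹ ∈ HB L := by
  rw [← MulAut.conj_apply, ← r0e_prod, ← List.prod_hom]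
  apply Subgroup.list_prod_mem
  intro x hx
  rw [List.mem_map] at hx
  obtain ⟨y, hy, rfl⟩ := hx
  rw [List.mem_map] at hy
  obtain ⟨e, he, rfl⟩ := hy
  exact entry_mem hs he

/-- Any blocks can be straightened in the presence of blocks which generate the conjugating
elements. -/
theorem straighten (P Q : List Word) (h : ∀ s ∈ Q, qq (ev s) ∈ HB P) :
    HurwitzEquiv ((bl (P ++ Q)).map dehn) ((bl (P ++ List.replicate Q.length [])).map dehn) := by
  induction Q generalizing P with
  | nil => exact HurwitzEquiv.refl _
  | cons s Q ih =>
    -- straighten the first block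
    have h1 : HurwitzEquiv ((bl P).map dehn ++ (R0e.map dehn))
        ((bl P).map dehn ++ ((R0e.map dehn).map (MulAut.conj (qq (ev s))))) :=
      conj_closure2 _ _ R0e_prod (h s List.mem_cons_self)
    have h2 := (h1.append [] ((bl Q).map dehn)).symm
    have e1 : [] ++ ((bl P).map dehn ++ ((R0e.map dehn).map (MulAut.conj (qq (ev s))))) ++
        (bl Q).map dehn = (bl (P ++ s :: Q)).map dehn := by
      have : bl (P ++ s :: Q) = bl P ++ (R0e.map (cj s) ++ bl Q) := by
        rw [bl_append]; rfl
      rw [this, List.map_append, List.map_append, map_dehn_cj]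
      simp
    have e2 : [] ++ ((bl P).map dehn ++ (R0e.map dehn)) ++ (bl Q).map dehn =
        (bl ((P ++ [[]]) ++ Q)).map dehn := by
      rw [bl_append, bl_append, bl_nil_single]
      simp
    rw [e1, e2] at h2
    refine h2.trans ?_
    have h3 := ih (P ++ [[]]) (fun s' hs' => HB_mono (fun x hx => List.mem_append_left _ hx)
      (h s' (List.mem_cons_of_mem _ hs')))
    have e3 : P ++ [[]] ++ List.replicate Q.length [] =
        P ++ List.replicate (s :: Q).length ([] : Word) := by
      rw [List.length_cons, List.replicate_succ]
      simp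
    rw [e3] at h3
    exact h3

theorem straighten_two (P Q : List Word) (hP : ∀ s ∈ Q, qq (ev s) ∈ HB P)
    (hQ : ∀ s ∈ P, qq (ev s) ∈ HB Q) :
    HurwitzEquiv ((bl (P ++ List.replicate Q.length [])).map dehn)
      ((bl (Q ++ List.replicate P.length [])).map dehn) := by
  refine (straighten P Q hP).symm.trans ((?_ : HurwitzEquiv _ _).trans (straighten Q P hQ))
  rw [bl_append, bl_append, List.map_append, List.map_append]
  exact swap _ _ (bl_prod Q)

end Pool.Agent.U630.HZ
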