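import Pool.Agent.U630.HZ.Fact

set_option autoImplicit false

/-! Factorizations whose twists generate the mapping class group. -/

namespace Pool.Agent.U630.HZ

open Pool.Agent.Y524H

/-- The list of conjugating words of a set of words: the empty word, the words and the products of
two words. -/
def tl (S : List Word) : List Word := [] :: (S ++ S.flatMap fun s => S.map fun t => s ++ t)

theorem tl_length (S : List Word) : (tl S).length = 1 + (S.length + S.length * S.length) := by
  simp [tl, List.length_flatMap]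
  ring

/-- The mapping classes of a list of words. -/
def ws (S : List Word) : Set OutPi := {x | ∃ s ∈ S, x = qq (ev s)}

theorem theta_mem2 (S : List Word) : qq sg ∈ HB (tl S) := by
  have h := theta_conj (L := tl S) (s := []) List.mem_cons_self
  have h1 : ev ([] : Word) = 1 := rfl
  rw [h1, map_one, one_mul, inv_one, mul_one] at h
  exact h

theorem comm2 (S : List Word) (hS : ∀ s ∈ S, isL s) :
    ∀ x ∈ Subgroup.closure (ws S), ∀ y ∈ Subgroup.closure (ws S),
      x * y * x⁻¹ * y⁻¹ ∈ HB (tl S) := by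
  apply comm_mem LL RR (HB (tl S)) (qq sg) LR_comm theta_LR (theta_mem2 S) (ws S)
  · rintro _ ⟨s, hs, rfl⟩
    exact isL_mem (hS s hs)
  · rintro _ ⟨s, hs, rfl⟩
    exact theta_conj (List.mem_cons_of_mem _ (List.mem_append_left _ hs))
  · rintro _ ⟨s, hs, rfl⟩ _ ⟨t, ht, rfl⟩
    rw [← map_mul, ← ev_append]
    apply theta_conj
    apply List.mem_cons_of_mem
    apply List.mem_append_right
    rw [List.mem_flatMap]
    exact ⟨s, hs, List.mem_map.2 ⟨t, ht, rfl⟩⟩

/-! ### the group of the left half is perfect -/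

/-- A twist of the left half in the abelianization of the group of the left half. -/
def tt (l : Lick) (hl : l ∈ Lset) : Abelianization LL :=
  Abelianization.of ⟨qq (twist l), Subgroup.subset_closure ⟨l, hl, rfl⟩⟩

theorem tt_braid (l l' : Lick) (hl : l ∈ Lset) (hl' : l' ∈ Lset)
    (h : twist l * twist l' * twist l = twist l' * twist l * twist l') : tt l hl = tt l' hl' := by
  have h1 : tt l hl * tt l' hl' * tt l hl = tt l' hl' * tt l hl * tt l' hl' := by
    unfold tt
    rw [← map_mul, ← map_mul, ← map_mul, ← map_mul]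
    congr 1
    apply Subtype.ext
    change qq (twist l) * qq (twist l') * qq (twist l) = qq (twist l') * qq (twist l) * qq (twist l')
    rw [← map_mul, ← map_mul, h, map_mul, map_mul]
  have h2 : tt l hl * (tt l' hl' * tt l hl) = tt l' hl' * (tt l' hl' * tt l hl) := by
    rw [← mul_assoc, h1, mul_comm (tt l' hl') (tt l hl), mul_comm (tt l' hl')]
  exact mul_right_cancel h2

/-- The sum of the exponents of a word. -/
def ex (w : Word) : ℤ := (w.map fun l => if l.2 then (1 : ℤ) else -1).sum

theorem ab_ev (t : Abelianization LL) (ht : ∀ l (hl : l ∈ Lset), tt l hl = t) (w : Word)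
    (hw : isL w) : Abelianization.of (⟨qq (ev w), isL_mem hw⟩ : LL) = t ^ ex w := by
  induction w with
  | nil =>
    have h1 : (⟨qq (ev ([] : Word)), isL_mem hw⟩ : LL) = 1 := by
      apply Subtype.ext
      have h1 : ev ([] : Word) = 1 := rfl
      change qq (ev ([] : Word)) = 1
      rw [h1, map_one]
    rw [h1, map_one]
    have h2 : ex [] = 0 := rfl
    rw [h2, zpow_zero]
  | cons l w ih =>
    have hl : l.1 ∈ Lset := inL_mem _ (hw l List.mem_cons_self)
    have hw' : isL w := fun x hx => hw x (List.mem_cons_of_mem _ hx)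
    have hex : ex (l :: w) = (if l.2 then (1 : ℤ) else -1) + ex w := by
      simp [ex]
    have h2 : ev (l :: w) = (if l.2 then twist l.1 else (twist l.1)⁻¹) * ev w := by simp [ev]
    let g : LL := ⟨qq (twist l.1), Subgroup.subset_closure ⟨l.1, hl, rfl⟩⟩
    have h3 : (⟨qq (ev (l :: w)), isL_mem hw⟩ : LL) =
        (if l.2 then g else g⁻¹) * ⟨qq (ev w), isL_mem hw'⟩ := by
      apply Subtype.ext
      change qq (ev (l :: w)) = _
      rw [h2, map_mul]
      change _ = ((if l.2 then g else g⁻¹ : LL) : OutPi) * qq (ev w)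
      congr 1
      split_ifs
      · rfl
      · rw [map_inv]; rfl
    have hg : Abelianization.of g = t := ht l.1 hl
    rw [h3, map_mul, ih hw', hex, zpow_add]
    congr 1
    split_ifs
    · rw [hg, zpow_one]
    · rw [map_inv, hg, zpow_neg, zpow_one]

/-- A word of a mapping class. -/
def h1w : Word := [lB 1 false, lC 0 false, lB 0 false, lA 0 false, lA 0 false, lB 0 false,
  lC 0 false, lB 1 false]

/-- A word of a mapping class. -/
def h2w : Word := [lB 2 false, lC 1 false, lB 1 false, lC 0 false, lA 1 false, lB 1 false,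
  lC 1 false, lB 2 false]

/-- The word of the chain relation. -/
def ch : Word := h1w ++ ([lA 1 false] ++ (List.replicate 4 [lA 0, lB 0, lC 0]).flatten) ++
  invWd h1w

/-- The word of the star relation. -/
def st : Word := h2w ++ ([lA 0 false, lA 2 false] ++
  (List.replicate 3 [lA 1, lC 0, lC 1, lB 1]).flatten) ++ invWd h2w

theorem ch_ok : ev ch = twist (.inl 1) := by
  have h : tabW ch = tabW [lA 1] := by decide +kernel
  rw [ev_eq h, ev_single]

theorem st_ok : ev st = twist (.inl 2) := by
  have h : tabW st = tabW [lA 2] := by decide +kernel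
  rw [ev_eq h, ev_single]

theorem isL_of {w : Word} (h : w.all (fun x => inL x.1) = true) : isL w := by
  intro x hx
  exact List.all_eq_true.1 h x hx

theorem br (l l' : Lick) (h : tabW [(l, true), (l', true), (l, true)] =
    tabW [(l', true), (l, true), (l', true)]) :
    twist l * twist l' * twist l = twist l' * twist l * twist l' := by
  have := ev_eq h
  simpa [ev, mul_assoc] using this

theorem m1L : (Sum.inl 1 : Lick) ∈ Lset := inL_mem _ (by decide)
theorem m2L : (Sum.inl 2 : Lick) ∈ Lset := inL_mem _ (by decide)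

/-- Curves of the right half. -/
def inR : Lick → Bool
  | .inl i => 3 ≤ i.val
  | .inr (.inl i) => 3 ≤ i.val
  | .inr (.inr i) => 3 ≤ i.val

theorem inR_mem (l : Lick) (h : inR l = true) : ∃ l' ∈ Lset, l = bar l' := by
  rcases l with i | i | i <;> fin_cases i <;> simp [inR] at h
  · exact ⟨.inl 0, inL_mem _ (by decide), rfl⟩
  · exact ⟨.inl 1, inL_mem _ (by decide), rfl⟩
  · exact ⟨.inl 2, inL_mem _ (by decide), rfl⟩
  · exact ⟨.inr (.inl 0), inL_mem _ (by decide), rfl⟩
  · exact ⟨.inr (.inl 1), inL_mem _ (by decide), rfl⟩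
  · exact ⟨.inr (.inl 2), inL_mem _ (by decide), rfl⟩
  · exact ⟨.inr (.inr 0), inL_mem _ (by decide), rfl⟩
  · exact ⟨.inr (.inr 1), inL_mem _ (by decide), rfl⟩

theorem tt_all : ∀ l (hl : l ∈ Lset), tt l hl = tt (.inl 1) m1L := by
  have mem : ∀ l, inL l = true → l ∈ Lset := inL_mem
  have e1 : tt (.inr (.inl 1)) (mem _ (by decide)) = tt (.inl 1) m1L :=
    tt_braid _ _ _ _ (br _ _ (by decide +kernel))
  have e2 : tt (.inr (.inr 0)) (mem _ (by decide)) = tt (.inl 1) m1L :=
    (tt_braid _ _ _ _ (br (.inr (.inr 0)) (.inr (.inl 1)) (by decide +kernel))).trans e1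
  have e3 : tt (.inr (.inr 1)) (mem _ (by decide)) = tt (.inl 1) m1L :=
    (tt_braid _ _ _ _ (br (.inr (.inr 1)) (.inr (.inl 1)) (by decide +kernel))).trans e1
  have e4 : tt (.inr (.inl 0)) (mem _ (by decide)) = tt (.inl 1) m1L :=
    (tt_braid _ _ _ _ (br (.inr (.inl 0)) (.inr (.inr 0)) (by decide +kernel))).trans e2
  have e5 : tt (.inr (.inl 2)) (mem _ (by decide)) = tt (.inl 1) m1L :=
    (tt_braid _ _ _ _ (br (.inr (.inl 2)) (.inr (.inr 1)) (by decide +kernel))).trans e3
  have e6 : tt (.inl 0) (mem _ (by decide)) = tt (.inl 1) m1L :=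
    (tt_braid _ _ _ _ (br (.inl 0) (.inr (.inl 0)) (by decide +kernel))).trans e4
  have e7 : tt (.inl 2) (mem _ (by decide)) = tt (.inl 1) m1L :=
    (tt_braid _ _ _ _ (br (.inl 2) (.inr (.inl 2)) (by decide +kernel))).trans e5
  intro l hl
  have hl' := hl
  simp only [Lset, List.mem_cons, List.not_mem_nil, or_false] at hl'
  rcases hl' with rfl | rfl | rfl | rfl | rfl | rfl | rfl | rfl
  · exact e6
  · rfl
  · exact e7
  · exact e4
  · exact e1
  · exact e5
  · exact e2
  · exact e3

theorem tt_one : ∀ l (hl : l ∈ Lset), tt l hl = 1 := by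
  set t := tt (.inl 1) m1L with ht
  have hch : isL ch := isL_of (by decide +kernel)
  have hst : isL st := isL_of (by decide +kernel)
  have h1 := ab_ev t tt_all ch hch
  have h2 := ab_ev t tt_all st hst
  have ex1 : ex ch = 11 := by decide +kernel
  have ex2 : ex st = 10 := by decide +kernel
  rw [ex1] at h1
  rw [ex2] at h2
  have k1 : Abelianization.of (⟨qq (ev ch), isL_mem hch⟩ : LL) = t := by
    have : (⟨qq (ev ch), isL_mem hch⟩ : LL) =
        ⟨qq (twist (.inl 1)), Subgroup.subset_closure ⟨.inl 1, m1L, rfl⟩⟩ := by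
      apply Subtype.ext
      change qq (ev ch) = qq (twist (.inl 1))
      rw [ch_ok]
    rw [this, ht]
    rfl
  have k2 : Abelianization.of (⟨qq (ev st), isL_mem hst⟩ : LL) = t := by
    have : (⟨qq (ev st), isL_mem hst⟩ : LL) =
        ⟨qq (twist (.inl 2)), Subgroup.subset_closure ⟨.inl 2, m2L, rfl⟩⟩ := by
      apply Subtype.ext
      change qq (ev st) = qq (twist (.inl 2))
      rw [st_ok]
    rw [this]
    exact tt_all (.inl 2) m2L
  rw [k1] at h1
  rw [k2] at h2
  have h3 : t = 1 := by
    have e1 : t ^ (11 : ℤ) = t ^ (10 : ℤ) := h1.symm.trans h2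
    have e2 : t ^ (11 : ℤ) = t ^ (10 : ℤ) * t := by
      rw [show (11 : ℤ) = 10 + 1 from rfl, zpow_add, zpow_one]
    rw [e2] at e1
    exact mul_eq_left.1 e1
  intro l hl
  rw [tt_all l hl, ← ht, h3]

/-- Every twist of the left half is in a subgroup which contains the commutators. -/
theorem mem_of_comm (H : Subgroup OutPi) (hH : ∀ x ∈ LL, ∀ y ∈ LL, x * y * x⁻¹ * y⁻¹ ∈ H) :
    ∀ l ∈ Lset, qq (twist l) ∈ H := by
  intro l hl
  have h1 := tt_one l hl
  unfold tt at h1
  rw [← MonoidHom.mem_ker, Abelianization.ker_of] at h1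
  have h2 : commutator LL ≤ H.comap LL.subtype := by
    rw [commutator_def, Subgroup.commutator_le]
    rintro ⟨x, hx⟩ _ ⟨y, hy⟩ _
    change x * y * x⁻¹ * y⁻¹ ∈ H
    exact hH x hx y hy
  exact h2 h1

/-- The mapping class group: the group generated by the twists about Lickorish's curves. -/
def MM : Subgroup OutPi := Subgroup.closure (Set.range fun l => qq (twist l))

/-- The word of a mapping class. -/
def pw : Word := [lB 3 false, lC 0, lB 1, lC 1, lB 2]

/-- The word of a mapping class. -/
def rw1 : Word := [lA 2, lB 2, lC 1, lB 1, lC 0, lB 0] ++ [lA 0] ++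
  invWd [lA 2, lB 2, lC 1, lB 1, lC 0, lB 0]

theorem c2_ok : ev (rw1 ++ invWd pw ++ (f1w ++ [lA 0] ++ invWd f1w) ++ pw ++ invWd rw1) =
    twist (.inr (.inr 2)) := by
  have h : tabW (rw1 ++ invWd pw ++ (f1w ++ [lA 0] ++ invWd f1w) ++ pw ++ invWd rw1) =
    tabW [lC 2] := by decide +kernel
  rw [ev_eq h, ev_single]

theorem ev_mem (H : Subgroup OutPi) (w : Word) (h : ∀ x ∈ w, qq (twist x.1) ∈ H) :
    qq (ev w) ∈ H := by
  induction w with
  | nil =>
    have : ev ([] : Word) = 1 := rfl
    rw [this, map_one]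
    exact H.one_mem
  | cons l w ih =>
    have h2 : ev (l :: w) = (if l.2 then twist l.1 else (twist l.1)⁻¹) * ev w := by simp [ev]
    rw [h2, map_mul]
    refine H.mul_mem ?_ (ih fun x hx => h x (List.mem_cons_of_mem _ hx))
    have hl := h l List.mem_cons_self
    split_ifs
    · exact hl
    · rw [map_inv]; exact H.inv_mem hl

/-- If the conjugating words generate the group of the left half, then the twists of the
factorization generate the mapping class group. -/
theorem full (S : List Word) (hS : ∀ s ∈ S, isL s) (hLL : LL ≤ Subgroup.closure (ws S)) :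
    MM ≤ HB (tl S) := by
  set H := HB (tl S) with hH
  have h1 : ∀ l ∈ Lset, qq (twist l) ∈ H :=
    mem_of_comm H fun x hx y hy => comm2 S hS x (hLL hx) y (hLL hy)
  have hθ : qq sg ∈ H := theta_mem2 S
  have h2 : ∀ l ∈ Lset, qq (twist (bar l)) ∈ H := by
    intro l hl
    have e : qq (twist (bar l)) = qq sg * qq (twist l) * (qq sg)⁻¹ := by
      rw [← map_mul, sg_bar l hl, map_mul, mul_inv_cancel_right]
    rw [e]
    exact H.mul_mem (H.mul_mem hθ (h1 l hl)) (H.inv_mem hθ)
  have h3 : qq (twist (.inr (.inr 2))) ∈ H := by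
    rw [← c2_ok, ev_append, ev_append, ev_append, ev_append, map_mul, map_mul, map_mul, map_mul]
    have hr : ∀ x ∈ rw1, inL x.1 = true := by decide +kernel
    have hr' : ∀ x ∈ invWd rw1, inL x.1 = true := by decide +kernel
    have hp : ∀ x ∈ pw, inL x.1 = true ∨ inR x.1 = true := by decide +kernel
    have hp' : ∀ x ∈ invWd pw, inL x.1 = true ∨ inR x.1 = true := by decide +kernel
    have m1 : qq (ev rw1) ∈ H := ev_mem H _ fun x hx => h1 _ (inL_mem _ (hr x hx))
    have m2 : qq (ev (invWd rw1)) ∈ H := ev_mem H _ fun x hx => h1 _ (inL_mem _ (hr' x hx))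
    have m3 : qq (ev pw) ∈ H := ev_mem H _ fun x hx => by
      rcases hp x hx with h | h
      · exact h1 _ (inL_mem _ h)
      · obtain ⟨l, hl, h⟩ := inR_mem _ h
        rw [h]; exact h2 l hl
    have m4 : qq (ev (invWd pw)) ∈ H := ev_mem H _ fun x hx => by
      rcases hp' x hx with h | h
      · exact h1 _ (inL_mem _ h)
      · obtain ⟨l, hl, h⟩ := inR_mem _ h
        rw [h]; exact h2 l hl
    have m5 : qq (ev (f1w ++ [lA 0] ++ invWd f1w)) ∈ H := by
      rw [← dehn_zero]
      have := entry_mem (L := tl S) (s := []) List.mem_cons_self (e := (0, f1w)) (by simp [r0e])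
      have h1 : ev ([] : Word) = 1 := rfl
      rw [h1, map_one, one_mul, inv_one, mul_one] at this
      exact this
    exact H.mul_mem (H.mul_mem (H.mul_mem (H.mul_mem m1 m4) m5) m3) m2
  rw [MM, Subgroup.closure_le]
  rintro _ ⟨l, rfl⟩
  have h4 : ∀ l : Lick, inL l = true ∨ inR l = true ∨ l = .inr (.inr 2) := by
    decide +kernel
  rcases h4 l with h | h | rfl
  · exact h1 l (inL_mem _ h)
  · obtain ⟨l', hl', rfl⟩ := inR_mem _ h
    exact h2 l' hl'
  · exact h3

/-- The words of the twists of the left half. -/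
def Sall : List Word := Lset.map fun l => [(l, true)]

theorem Sall_isL : ∀ s ∈ Sall, isL s := by
  intro s hs
  apply isL_of
  revert s
  decide +kernel

theorem full_all : MM ≤ HB (tl Sall) := by
  apply full Sall Sall_isL
  rw [LL, Subgroup.closure_le]
  rintro _ ⟨l, hl, rfl⟩
  apply Subgroup.subset_closure
  exact ⟨[(l, true)], List.mem_map.2 ⟨l, hl, rfl⟩, by rw [ev_single]⟩

end Pool.Agent.U630.HZ
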