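import Pool.Agent.U630.HZ.Gen
import Pool.Agent.Y524H.Check

set_option autoImplicit false

/-! Equivalence up to Hurwitz moves and global conjugation is undecidable. -/

namespace Pool.Agent.U630.HZ

open Pool.Agent.Y524H

/-- The conjugating words. -/
def Sp (rl : List W2) : List Word :=
  [Di 0, Di 1, [lA 0], [lA 1], [lA 2], [lB 1], [lC 0], [lC 1]] ++ rl.map Gw

theorem Sp_length (rl : List W2) : (Sp rl).length = 8 + rl.length := by
  simp [Sp]
  omega

theorem Sp_isL (rl : List W2) : ∀ s ∈ Sp rl, isL s := by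
  intro s hs
  rw [Sp, List.mem_append] at hs
  rcases hs with hs | hs
  · apply isL_of
    revert s
    decide +kernel
  · obtain ⟨w, _, rfl⟩ := List.mem_map.1 hs
    exact isL_Gw w

/-! ### the trivial group -/

/-- A word. -/
def g0 : Word := Gi 0 ++ [lC 0, lA 0 false]

/-- A word. -/
def g2 : Word := invWd (Gi 1) ++ [lC 1 false, lA 2]

theorem g0_ok : ev g0 * twist (.inr (.inl 0)) * (ev g0)⁻¹ = twist (.inl 1) := by
  have h : tabW (g0 ++ [lB 0] ++ invWd g0) = tabW [lA 1] := by decide +kernel
  have := ev_eq h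
  rwa [ev_append, ev_append, ev_invWd, ev_single, ev_single] at this

theorem g2_ok : ev g2 * twist (.inr (.inl 2)) * (ev g2)⁻¹ = twist (.inl 1) := by
  have h : tabW (g2 ++ [lB 2] ++ invWd g2) = tabW [lA 1] := by decide +kernel
  have := ev_eq h
  rwa [ev_append, ev_append, ev_invWd, ev_single, ev_single] at this

theorem mem_of_conj {G : Type} [Group G] (H : Subgroup G) {g b a : G} (h : g * b * g⁻¹ = a)
    (hg : g ∈ H) (ha : a ∈ H) : b ∈ H := by
  have : b = g⁻¹ * a * g := by rw [← h]; group
  rw [this]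
  exact H.mul_mem (H.mul_mem (H.inv_mem hg) ha) hg

theorem SS_le (rl : List W2) : Subgroup.closure (SS rl) ≤ Subgroup.closure (ws (Sp rl)) := by
  apply Subgroup.closure_mono
  rintro _ ⟨s, hs, rfl⟩
  refine ⟨s, ?_, rfl⟩
  simp only [S0, List.mem_append, List.mem_cons, List.not_mem_nil, or_false] at hs
  rw [Sp, List.mem_append]
  rcases hs with (rfl | rfl | rfl | rfl) | hs
  · left; simp
  · left; simp
  · left; simp
  · left; simp
  · right; exact hs

theorem LL_le (rl : List W2) (h : Subgroup.normalClosure (Rel rl) = ⊤) :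
    LL ≤ Subgroup.closure (ws (Sp rl)) := by
  set K := Subgroup.closure (ws (Sp rl)) with hK
  have hG : ∀ i : Fin 2, qq (ev (Gi i)) ∈ K := by
    intro i
    have e : Gh (FreeGroup.of i) = ev (Gi i) := by rw [Gh, FreeGroup.lift_apply_of]
    rw [← e]
    exact SS_le rl (G_mem rl _ (h ▸ Subgroup.mem_top _))
  have hs : ∀ l : Lick, [(l, true)] ∈ Sp rl → qq (twist l) ∈ K := by
    intro l hl
    apply Subgroup.subset_closure
    exact ⟨_, hl, by rw [ev_single]⟩
  have a0 := hs (.inl 0) (by simp [Sp])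
  have a1 := hs (.inl 1) (by simp [Sp])
  have a2 := hs (.inl 2) (by simp [Sp])
  have b1 := hs (.inr (.inl 1)) (by simp [Sp])
  have c0 := hs (.inr (.inr 0)) (by simp [Sp])
  have c1 := hs (.inr (.inr 1)) (by simp [Sp])
  have hg0 : qq (ev g0) ∈ K := by
    rw [g0, ev_append, map_mul]
    refine K.mul_mem (hG 0) ?_
    have : ev [lC 0, lA 0 false] = twist (.inr (.inr 0)) * (twist (.inl 0))⁻¹ := by simp [ev]
    rw [this, map_mul, map_inv]
    exact K.mul_mem c0 (K.inv_mem a0)
  have hg2 : qq (ev g2) ∈ K := by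
    rw [g2, ev_append, map_mul, ev_invWd, map_inv]
    refine K.mul_mem (K.inv_mem (hG 1)) ?_
    have : ev [lC 1 false, lA 2] = (twist (.inr (.inr 1)))⁻¹ * twist (.inl 2) := by simp [ev]
    rw [this, map_mul, map_inv]
    exact K.mul_mem (K.inv_mem c1) a2
  have b0 : qq (twist (.inr (.inl 0))) ∈ K := by
    refine mem_of_conj K (g := qq (ev g0)) ?_ hg0 a1
    rw [← map_inv, ← map_mul, ← map_mul, g0_ok]
  have b2 : qq (twist (.inr (.inl 2))) ∈ K := by
    refine mem_of_conj K (g := qq (ev g2)) ?_ hg2 a1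
    rw [← map_inv, ← map_mul, ← map_mul, g2_ok]
  rw [LL, Subgroup.closure_le]
  rintro _ ⟨l, hl, rfl⟩
  simp only [Lset, List.mem_cons, List.not_mem_nil, or_false] at hl
  rcases hl with rfl | rfl | rfl | rfl | rfl | rfl | rfl | rfl
  · exact a0
  · exact a1
  · exact a2
  · exact b0
  · exact b1
  · exact b2
  · exact c0
  · exact c1

theorem full_Sp (rl : List W2) (h : Subgroup.normalClosure (Rel rl) = ⊤) :
    MM ≤ HB (tl (Sp rl)) := full (Sp rl) (Sp_isL rl) (LL_le rl h)

/-! ### the other direction -/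

theorem Sp_St (rl : List W2) : ∀ s ∈ Sp rl, ev s ∈ St rl := by
  intro s hs
  simp only [Sp, List.mem_append, List.mem_cons, List.not_mem_nil, or_false] at hs
  rcases hs with (rfl | rfl | rfl | rfl | rfl | rfl | rfl | rfl) | hs
  · exact St_of_table rl (tD0_ok ▸ ev_isTab _) (by decide +kernel)
  · exact St_of_table rl (tD1_ok ▸ ev_isTab _) (by decide +kernel)
  · exact St_of_table rl (ev_isTab _) (by decide +kernel)
  · exact St_of_table rl (ev_isTab _) (by decide +kernel)
  · exact St_of_table rl (ev_isTab _) (by decide +kernel)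
  · exact St_of_table rl (ev_isTab _) (by decide +kernel)
  · exact St_of_table rl (ev_isTab _) (by decide +kernel)
  · exact St_of_table rl (ev_isTab _) (by decide +kernel)
  · exact S0_St rl s (List.mem_append_right _ hs)

theorem HB_le (rl : List W2) (L : List Word) (hL : ∀ s ∈ L, ev s ∈ St rl) :
    HB L ≤ (St rl).map qq := by
  rw [HB, Subgroup.closure_le]
  intro x hx
  simp only [Set.mem_ofPred_eq, List.mem_map] at hx
  obtain ⟨e, he, rfl⟩ := hx
  rw [bl, List.mem_flatMap] at he
  obtain ⟨s, hs, he⟩ := he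
  rw [List.mem_map] at he
  obtain ⟨e', he', rfl⟩ := he
  rw [dehn_cj, MulAut.conj_apply]
  have h1 : qq (ev s) ∈ (St rl).map qq := Subgroup.mem_map_of_mem qq (hL s hs)
  have h2 : dehn e' ∈ (St rl).map qq := by
    rw [R0e, List.mem_append] at he'
    exact r0e_St rl e' (he'.elim id id)
  exact Subgroup.mul_mem _ (Subgroup.mul_mem _ h1 h2) (Subgroup.inv_mem _ h1)

theorem tl_St (rl : List W2) : ∀ s ∈ tl (Sp rl), ev s ∈ St rl := by
  intro s hs
  rw [tl, List.mem_cons, List.mem_append] at hs
  rcases hs with rfl | hs | hs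
  · exact (St rl).one_mem
  · exact Sp_St rl s hs
  · rw [List.mem_flatMap] at hs
    obtain ⟨u, hu, hs⟩ := hs
    rw [List.mem_map] at hs
    obtain ⟨v, hv, rfl⟩ := hs
    rw [ev_append]
    exact (St rl).mul_mem (Sp_St rl u hu) (Sp_St rl v hv)

/-- The list of the first factorization. -/
def xL (rl : List W2) : List Word := tl (Sp rl) ++ List.replicate 73 []

theorem xL_St (rl : List W2) : ∀ s ∈ xL rl, ev s ∈ St rl := by
  intro s hs
  rw [xL, List.mem_append] at hs
  rcases hs with hs | hs
  · exact tl_St rl s hs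
  · rw [List.mem_replicate] at hs
    rw [hs.2]
    exact (St rl).one_mem

/-- A twist which preserves the homomorphism up to conjugacy. -/
theorem gen_one (rl : List W2) (l : Lick) (i j : ℕ) (hl : qq (twist l) ∈ (St rl).map qq)
    (h1 : Phi (pp rl) 1 (vv i) = 1) (h2 : twist l (vv i) = vv i * (vv j)⁻¹) :
    Phi (pp rl) 1 (vv j) = 1 := by
  obtain ⟨α, hα, hα2⟩ := hl
  obtain ⟨z0, hz0⟩ : ∃ z0, MulAut.conj z0 = α⁻¹ * twist l := QuotientGroup.eq.1 hα2
  have h3 : twist l = α * MulAut.conj z0 := by rw [hz0, mul_inv_cancel_left]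
  have h4 := DFunLike.congr_fun hα (MulAut.conj z0 (vv i))
  have h5 : Phi (pp rl) 1 (twist l (vv i)) = Phi (pp rl) 1 (MulAut.conj z0 (vv i)) := by
    rw [h3, MulAut.mul_apply]
    exact h4
  rw [h2, MulAut.conj_apply, map_mul, map_mul, map_mul, map_inv, map_inv, h1, mul_one, one_mul,
    mul_inv_cancel] at h5
  exact inv_eq_one.1 h5

theorem trivial_of_full (rl : List W2) (h : MM ≤ HB (xL rl)) :
    Subgroup.normalClosure (Rel rl) = ⊤ := by
  have hle := h.trans (HB_le rl (xL rl) (xL_St rl))
  have t0 : qq (twist (.inr (.inl 0))) ∈ (St rl).map qq :=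
    hle (Subgroup.subset_closure ⟨_, rfl⟩)
  have t2 : qq (twist (.inr (.inl 2))) ∈ (St rl).map qq :=
    hle (Subgroup.subset_closure ⟨_, rfl⟩)
  have p0 : Phi (pp rl) 1 (vv 1) = 1 := by
    apply gen_one rl (.inr (.inl 0)) 0 1 t0
    · rw [Phi_one]
      simp [PT, den]
    · have := twist_isTab (.inr (.inl 0)) 0
      rw [this]
      have e : (tabL (.inr (.inl 0), true)).getD (0 % 12) [] = [0, 3] := by decide +kernel
      rw [e]
      simp [den, dl]
  have p2 : Phi (pp rl) 1 (vv 5) = 1 := by
    apply gen_one rl (.inr (.inl 2)) 4 5 t2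
    · rw [Phi_one]
      simp [PT, den]
    · have := twist_isTab (.inr (.inl 2)) 4
      rw [this]
      have e : (tabL (.inr (.inl 2), true)).getD (4 % 12) [] = [8, 11] := by decide +kernel
      rw [e]
      simp [den, dl]
  have q0 : pp rl 0 = 1 := by
    rw [Phi_one] at p0
    simpa [PT, den, dl, yy] using p0
  have q1 : pp rl 1 = 1 := by
    rw [Phi_one] at p2
    simpa [PT, den, dl, yy] using p2
  have h3 : PresentedGroup.mk (Rel rl) = 1 := by
    apply FreeGroup.ext_hom
    intro i
    fin_cases i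
    · exact q0
    · exact q1
  rw [eq_top_iff]
  intro x _
  exact (QuotientGroup.eq_one_iff _).1 (DFunLike.congr_fun h3 x)

/-! ### equivalence -/

/-- Hurwitz moves and global conjugations. -/
inductive Step : List OutPi → List OutPi → Prop
  | hurwitz {u v : List OutPi} (h : HurwitzMove u v) : Step u v
  | conj (u : List OutPi) (γ : OutPi) (hγ : γ ∈ MM) : Step u (u.map fun t => γ * t * γ⁻¹)

/-- Equivalence up to Hurwitz moves and global conjugation. -/
def Eqv (u v : List OutPi) : Prop := Relation.EqvGen Step u v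

theorem Eqv.of_hurwitz {u v : List OutPi} (h : HurwitzEquiv u v) : Eqv u v := by
  induction h with
  | rel _ _ h => exact Relation.EqvGen.rel _ _ (Step.hurwitz h)
  | refl _ => exact Relation.EqvGen.refl _
  | symm _ _ _ h => exact Relation.EqvGen.symm _ _ h
  | trans _ _ _ _ _ h1 h2 => exact Relation.EqvGen.trans _ _ _ h1 h2

theorem conj_full (u : List OutPi) (γ : OutPi) (hγ : γ ∈ MM)
    (h : MM ≤ Subgroup.closure {x | x ∈ u}) :
    MM ≤ Subgroup.closure {x | x ∈ u.map fun t => γ * t * γ⁻¹} := by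
  have e : (u.map fun t => γ * t * γ⁻¹) = u.map (MulAut.conj γ) := by
    apply List.map_congr_left
    intro x _
    rw [MulAut.conj_apply]
  rw [e, closure_conj]
  intro x hx
  refine ⟨γ⁻¹ * x * γ, h (MM.mul_mem (MM.mul_mem (MM.inv_mem hγ) hx) hγ), ?_⟩
  change γ * (γ⁻¹ * x * γ) * γ⁻¹ = x
  group

theorem Step.full {u v : List OutPi} (h : Step u v) : MM ≤ Subgroup.closure {x | x ∈ u} ↔
    MM ≤ Subgroup.closure {x | x ∈ v} := by
  cases h with
  | hurwitz h => rw [h.closure_eq]
  | conj γ hγ =>
    refine ⟨conj_full u γ hγ, fun h => ?_⟩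
    have h1 := conj_full _ γ⁻¹ (MM.inv_mem hγ) h
    have e : ((u.map fun t => γ * t * γ⁻¹).map fun t => γ⁻¹ * t * γ⁻¹⁻¹) = u := by
      rw [List.map_map]
      conv_rhs => rw [← List.map_id u]
      apply List.map_congr_left
      intro x _
      simp only [Function.comp_apply, inv_inv, id]
      group
    rwa [e] at h1

theorem Eqv.full {u v : List OutPi} (h : Eqv u v) : MM ≤ Subgroup.closure {x | x ∈ u} ↔
    MM ≤ Subgroup.closure {x | x ∈ v} := by
  induction h with
  | rel _ _ h => exact h.full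
  | refl _ => exact Iff.rfl
  | symm _ _ _ h => exact h.symm
  | trans _ _ _ _ _ h1 h2 => exact h1.trans h2

/-- The list of the fixed factorization. -/
def yL (N : ℕ) : List Word := tl Sall ++ List.replicate (1 + ((8 + N) + (8 + N) * (8 + N))) []

theorem ev_MM (w : Word) : qq (ev w) ∈ MM :=
  ev_mem MM w fun _ _ => Subgroup.subset_closure ⟨_, rfl⟩

theorem equiv_of_trivial (rl : List W2) (h : Subgroup.normalClosure (Rel rl) = ⊤) :
    HurwitzEquiv ((bl (yL rl.length)).map dehn) ((bl (xL rl)).map dehn) := by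
  have h1 := straighten_two (tl Sall) (tl (Sp rl)) (fun s _ => full_all (ev_MM s))
    (fun s _ => full_Sp rl h (ev_MM s))
  have e1 : (tl (Sp rl)).length = 1 + ((8 + rl.length) + (8 + rl.length) * (8 + rl.length)) := by
    rw [tl_length, Sp_length]
  have e2 : (tl Sall).length = 73 := by
    rw [tl_length]
    rfl
  rw [e1, e2] at h1
  exact h1

theorem full_yL (N : ℕ) : MM ≤ Subgroup.closure {x | x ∈ (bl (yL N)).map dehn} :=
  full_all.trans (HB_mono fun _ hs => List.mem_append_left _ hs)

theorem main_iff (rl : List W2) :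
    (Eqv ((bl (yL rl.length)).map dehn) ((bl (xL rl)).map dehn) ↔
      Subgroup.normalClosure (Rel rl) = ⊤) ∧
    (MM ≤ Subgroup.closure {x | x ∈ (bl (xL rl)).map dehn} ↔
      Subgroup.normalClosure (Rel rl) = ⊤) := by
  have h2 : MM ≤ Subgroup.closure {x | x ∈ (bl (xL rl)).map dehn} ↔
      Subgroup.normalClosure (Rel rl) = ⊤ :=
    ⟨trivial_of_full rl, fun h => (full_Sp rl h).trans
      (HB_mono fun _ hs => List.mem_append_left _ hs)⟩
  refine ⟨⟨fun h => h2.1 (h.full.1 (full_yL _)), fun h => Eqv.of_hurwitz (equiv_of_trivial rl h)⟩,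
    h2⟩

/-! ### computability -/

theorem invWd_primrec : Primrec invWd := by
  have hf : Primrec (fun l : Lick × Bool => ((l.1, !l.2) : Lick × Bool)) := Primrec.dom_finite _
  have h2 : Primrec₂ (fun (_ : Word) (l : Lick × Bool) => ((l.1, !l.2) : Lick × Bool)) :=
    hf.comp Primrec.snd
  exact Primrec.list_reverse.comp (Primrec.list_map Primrec.id h2)

theorem Gw_primrec : Primrec Gw := by
  have h0 : Primrec (fun x : Fin 2 × Bool => if x.2 then Gi x.1 else invWd (Gi x.1)) :=
    Primrec.dom_finite _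
  have h : Primrec₂ (fun (_ : List (Fin 2 × Bool)) (x : Fin 2 × Bool) =>
      if x.2 then Gi x.1 else invWd (Gi x.1)) := h0.comp Primrec.snd
  exact Primrec.list_flatMap Primrec.id h

theorem Sp_primrec : Primrec Sp := by
  unfold Sp
  exact Primrec.list_append.comp (Primrec.const _)
    (Primrec.list_map Primrec.id (Gw_primrec.comp Primrec.snd).to₂)

theorem tl_primrec : Primrec tl := by
  unfold tl
  refine Primrec.list_cons.comp (Primrec.const _) ?_
  refine Primrec.list_append.comp Primrec.id ?_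
  refine Primrec.list_flatMap Primrec.id ?_
  have h : Primrec₂ (fun (p : List Word × Word) (t : Word) => p.2 ++ t) :=
    Primrec.list_append.comp (Primrec.snd.comp Primrec.fst) Primrec.snd
  exact Primrec.list_map Primrec.fst h

theorem cj_primrec : Primrec₂ (fun (s : Word) (e : Entry) => cj s e) := by
  have : Primrec (fun p : Word × Entry => ((p.2.1, p.1 ++ p.2.2) : Entry)) :=
    Primrec.pair (Primrec.fst.comp Primrec.snd)
      (Primrec.list_append.comp Primrec.fst (Primrec.snd.comp Primrec.snd))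
  exact this

theorem bl_primrec : Primrec bl := by
  unfold bl
  refine Primrec.list_flatMap Primrec.id ?_
  have h : Primrec (fun s : Word => R0e.map (cj s)) :=
    Primrec.list_map (Primrec.const _) cj_primrec
  exact (h.comp Primrec.snd).to₂

theorem xL_primrec : Primrec (fun rl : List W2 => bl (xL rl)) := by
  unfold xL
  exact bl_primrec.comp (Primrec.list_append.comp (tl_primrec.comp Sp_primrec) (Primrec.const _))

theorem undecidable_main : ∃ y : List Entry, IsFactorization y ∧
    ¬ (∃ f : List Entry → Bool, Computable f ∧ ∀ x : List Entry, IsFactorization x →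
      (f x = true ↔ Eqv (y.map dehn) (x.map dehn))) ∧
    ¬ (∃ f : List Entry → Bool, Computable f ∧ ∀ x : List Entry, IsFactorization x →
      (f x = true ↔ MM ≤ Subgroup.closure {t | t ∈ x.map dehn})) := by
  obtain ⟨N, R, hR, hN, hn⟩ := triviality_two
  have hc : Computable (fun n => bl (xL (R n))) := xL_primrec.to_comp.comp hR
  refine ⟨bl (yL N), bl_isFactorization _, ?_, ?_⟩
  · rintro ⟨f, hf, hfx⟩
    apply hn
    have hcp : ComputablePred (fun n => f (bl (xL (R n))) = true) :=
      ⟨fun n => inferInstance, (hf.comp hc).of_eq fun n => by simp⟩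
    refine hcp.of_eq ?_
    intro n
    rw [hfx _ (bl_isFactorization _)]
    have := (main_iff (R n)).1
    rw [hN n] at this
    exact this
  · rintro ⟨f, hf, hfx⟩
    apply hn
    have hcp : ComputablePred (fun n => f (bl (xL (R n))) = true) :=
      ⟨fun n => inferInstance, (hf.comp hc).of_eq fun n => by simp⟩
    refine hcp.of_eq ?_
    intro n
    rw [hfx _ (bl_isFactorization _)]
    exact (main_iff (R n)).2

/-! ### the generated subgroup is contained in the mapping class group -/

theorem sep_mem (k : Fin 4) (hk : k ≠ 0) : qq (sepTwist k) ∈ MM := by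
  have h : ∀ l, qq (twist l) ∈ MM := fun l => Subgroup.subset_closure ⟨l, rfl⟩
  fin_cases k
  · exact absurd rfl hk
  · change qq (sepTwist 1) ∈ MM
    rw [← chain_one, map_pow, map_mul]
    exact MM.pow_mem (MM.mul_mem (h _) (h _)) _
  · change qq (sepTwist 2) ∈ MM
    rw [← chain_two, map_pow, map_mul, map_mul, map_mul]
    exact MM.pow_mem (MM.mul_mem (MM.mul_mem (MM.mul_mem (h _) (h _)) (h _)) (h _)) _
  · change qq (sepTwist 3) ∈ MM
    rw [← chain_three, map_pow, map_mul, map_mul, map_mul, map_mul, map_mul]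
    exact MM.pow_mem (MM.mul_mem (MM.mul_mem (MM.mul_mem (MM.mul_mem (MM.mul_mem (h _) (h _))
      (h _)) (h _)) (h _)) (h _)) _

theorem dehn_mem (e : Entry) : dehn e ∈ MM := by
  have h1 : dehn e = qq (ev e.2) * qq (if e.1 = 0 then twist (.inl 0) else sepTwist e.1) *
      (qq (ev e.2))⁻¹ := by
    rw [← map_inv, ← map_mul, ← map_mul]
    rfl
  rw [h1]
  refine MM.mul_mem (MM.mul_mem (ev_MM _) ?_) (MM.inv_mem (ev_MM _))
  split_ifs with h
  · exact Subgroup.subset_closure ⟨_, rfl⟩
  · exact sep_mem _ h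

theorem closure_le_MM (x : List Entry) : Subgroup.closure {t | t ∈ x.map dehn} ≤ MM := by
  rw [Subgroup.closure_le]
  intro t ht
  simp only [Set.mem_ofPred_eq, List.mem_map] at ht
  obtain ⟨e, _, rfl⟩ := ht
  exact dehn_mem e

end Pool.Agent.U630.HZ
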